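import Mathlib

set_option autoImplicit false

/-!
# A quasigroup of order 17 with `(xy)y = x(xy)`

On the field `ℤ/17` put `x * y = x - 4 (y - x)` if `y - x` is a square and `x * y = x + 4 (y - x)` if it is
not (a quadratic orthomorphism). Since `4` and `-4` are squares and `1 - 4`, `1 + 4` are not, this is a
quasigroup with `(xy)y = x(xy)`.
-/

namespace Pool.Agent.Results.MP_ab03e0_co.OrderSeventeen

/-- `x - 4 (y - x)` if `(y - x) ^ 8 = 1` (that is, `y - x ≠ 0` is a square), else `x + 4 (y - x)` -/
def op (x y : Fin 17) : Fin 17 :=
  if (y - x) * (y - x) * ((y - x) * (y - x)) * ((y - x) * (y - x) * ((y - x) * (y - x))) = 1 then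
    x - 4 * (y - x) else x + 4 * (y - x)

set_option maxRecDepth 100000 in
theorem left_inj : ∀ a x y : Fin 17, op a x = op a y → x = y := by decide

set_option maxRecDepth 100000 in
theorem right_inj : ∀ a x y : Fin 17, op x a = op y a → x = y := by decide

set_option maxRecDepth 100000 in
theorem ident : ∀ x y : Fin 17, op (op x y) y = op x (op x y) := by decide

/-- There is a quasigroup of order `17` satisfying `(xy)y = x(xy)` for all `x, y`: for all `a, b` each
of the equations `a x = b` and `x a = b` has exactly one solution. -/
theorem result : ∃ (S : Type) (_ : Fintype S) (mul : S → S → S), Fintype.card S = 17 ∧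
    (∀ a b : S, ∃! x, mul a x = b) ∧ (∀ a b : S, ∃! x, mul x a = b) ∧
    ∀ x y : S, mul (mul x y) y = mul x (mul x y) := by
  refine ⟨Fin 17, inferInstance, op, rfl, fun a b => ?_, fun a b => ?_, ident⟩
  · have h : Function.Bijective (op a) :=
      Finite.injective_iff_bijective.1 fun x y h => left_inj a x y h
    exact (Function.bijective_iff_existsUnique _).1 h b
  · have h : Function.Bijective (fun x => op x a) :=
      Finite.injective_iff_bijective.1 fun x y h => right_inj a x y h
    exact (Function.bijective_iff_existsUnique _).1 h b

end Pool.Agent.Results.MP_ab03e0_co.OrderSeventeen
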